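import Pool.Agent.Helper37.DG.Stmts

set_option autoImplicit false

/-!
Landreau's inequality (module LDR).
-/

namespace Pool.Agent.Helper37.DG

open Finset

theorem ldr_tau_mul (a b : ℕ) : tau (a * b) ≤ tau a * tau b := by
  unfold tau
  rw [Nat.divisors_mul]
  exact Finset.card_mul_le

theorem ldr_tau_pos {n : ℕ} (h : 1 ≤ n) : 1 ≤ tau n := by
  unfold tau
  exact Finset.card_pos.mpr ⟨1, Nat.mem_divisors.mpr ⟨one_dvd n, by omega⟩⟩

theorem ldr_small (k m : ℕ) (hk : 1 ≤ k) (hm : 1 ≤ m) : ∀ (j n : ℕ), n ∣ m →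
    (∀ p : ℕ, p.Prime → p ∣ n → p ^ k ≤ m) → n ^ (2 * k) ≤ m ^ j →
    ∃ e : ℕ, e ∣ m ∧ e ^ k ≤ m ∧ tau n ≤ tau e ^ (j + 1) := by
  intro j
  induction j with
  | zero =>
    intro n hn _ h
    have hn0 : n ≠ 0 := by
      rintro rfl
      rw [Nat.zero_dvd] at hn
      omega
    have h1 : n = 1 := by
      by_contra hne
      have h2 : 2 ≤ n := by omega
      have h3 : 2 ^ (2 * k) ≤ n ^ (2 * k) := Nat.pow_le_pow_left h2 _
      have h4 : 2 ^ 1 ≤ 2 ^ (2 * k) := Nat.pow_le_pow_right (by norm_num) (by omega)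
      simp only [pow_zero] at h
      omega
    subst h1
    refine ⟨1, one_dvd m, by rw [one_pow]; exact hm, ?_⟩
    simp
  | succ j ih =>
    intro n hn hp h
    have hn0 : n ≠ 0 := by
      rintro rfl
      rw [Nat.zero_dvd] at hn
      omega
    -- the largest small divisor
    obtain ⟨d, hd, hmax⟩ := Finset.exists_max_image (n.divisors.filter (fun d => d ^ k ≤ m))
      (fun d => d) ⟨1, by
        rw [Finset.mem_filter, Nat.mem_divisors]
        exact ⟨⟨one_dvd n, hn0⟩, by rw [one_pow]; exact hm⟩⟩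
    rw [Finset.mem_filter, Nat.mem_divisors] at hd
    obtain ⟨⟨hdn, -⟩, hdk⟩ := hd
    obtain ⟨n', hn'⟩ := hdn
    have hd0 : d ≠ 0 := by
      rintro rfl
      simp at hn'
      exact hn0 hn'
    have hn'0 : n' ≠ 0 := by
      rintro rfl
      simp at hn'
      exact hn0 hn'
    by_cases hn1 : n' = 1
    · subst hn1
      rw [mul_one] at hn'
      subst hn'
      refine ⟨n, hn, hdk, ?_⟩
      have h1 := ldr_tau_pos (n := n) (by omega)
      calc tau n = tau n ^ 1 := (pow_one _).symm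
        _ ≤ tau n ^ (j + 1 + 1) := Nat.pow_le_pow_right h1 (by omega)
    · obtain ⟨p, hpp, hpn⟩ := Nat.exists_prime_and_dvd hn1
      have hpn2 : p ∣ n := hn' ▸ Dvd.dvd.mul_left hpn d
      have hpd : p ≤ d := by
        refine hmax p ?_
        rw [Finset.mem_filter, Nat.mem_divisors]
        exact ⟨⟨hpn2, hn0⟩, hp p hpp hpn2⟩
      have hbig : m < (d * p) ^ k := by
        by_contra hcon
        have h1 : d * p ≤ d := by
          refine hmax (d * p) ?_
          rw [Finset.mem_filter, Nat.mem_divisors]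
          refine ⟨⟨?_, hn0⟩, not_lt.mp hcon⟩
          rw [hn']
          exact Nat.mul_dvd_mul_left d hpn
        have h2 : d * 2 ≤ d * p := Nat.mul_le_mul_left d hpp.two_le
        omega
      have hd2 : m < d ^ (2 * k) := by
        refine lt_of_lt_of_le hbig ?_
        rw [pow_mul, sq]
        exact Nat.pow_le_pow_left (Nat.mul_le_mul_left d hpd) k
      have hn'm : n' ∣ m := dvd_trans ⟨d, by rw [hn', mul_comm]⟩ hn
      have hn'j : n' ^ (2 * k) ≤ m ^ j := by
        have h1 : m * n' ^ (2 * k) ≤ m * m ^ j := by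
          calc m * n' ^ (2 * k) ≤ d ^ (2 * k) * n' ^ (2 * k) := Nat.mul_le_mul_right _ hd2.le
            _ = n ^ (2 * k) := by rw [← mul_pow, ← hn']
            _ ≤ m ^ (j + 1) := h
            _ = m * m ^ j := by rw [pow_succ, mul_comm]
        exact Nat.le_of_mul_le_mul_left h1 (by omega)
      obtain ⟨e, he1, he2, he3⟩ := ih n' hn'm
        (fun q hq hqn => hp q hq (hn' ▸ Dvd.dvd.mul_left hqn d)) hn'j
      have hdm : d ∣ m := dvd_trans ⟨n', hn'⟩ hn
      have ht : tau n ≤ tau d * tau e ^ (j + 1) := by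
        rw [hn']
        exact (ldr_tau_mul d n').trans (Nat.mul_le_mul_left _ he3)
      rcases le_total (tau d) (tau e) with h1 | h1
      · refine ⟨e, he1, he2, ht.trans ?_⟩
        calc tau d * tau e ^ (j + 1) ≤ tau e * tau e ^ (j + 1) := Nat.mul_le_mul_right _ h1
          _ = tau e ^ (j + 1 + 1) := by rw [pow_succ (tau e) (j + 1), mul_comm]
      · refine ⟨d, hdm, hdk, ht.trans ?_⟩
        calc tau d * tau e ^ (j + 1) ≤ tau d * tau d ^ (j + 1) :=
              Nat.mul_le_mul_left _ (Nat.pow_le_pow_left h1 _)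
          _ = tau d ^ (j + 1 + 1) := by rw [pow_succ (tau d) (j + 1), mul_comm]

theorem ldr_big (k m : ℕ) (hm : 1 ≤ m) : ∀ (j n : ℕ), n ∣ m → n ^ k ≤ m ^ j →
    ∃ n' : ℕ, n' ∣ n ∧ (∀ p : ℕ, p.Prime → p ∣ n' → p ^ k ≤ m) ∧ tau n ≤ 2 ^ j * tau n' := by
  intro j
  induction j with
  | zero =>
    intro n hn h
    refine ⟨n, dvd_rfl, ?_, by simp⟩
    intro p _ hpn
    have hn0 : n ≠ 0 := by
      rintro rfl
      rw [Nat.zero_dvd] at hn
      omega
    have h1 : p ≤ n := Nat.le_of_dvd (Nat.pos_of_ne_zero hn0) hpn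
    have h2 : p ^ k ≤ n ^ k := Nat.pow_le_pow_left h1 k
    rw [pow_zero] at h
    omega
  | succ j ih =>
    intro n hn h
    by_cases hall : ∀ p : ℕ, p.Prime → p ∣ n → p ^ k ≤ m
    · refine ⟨n, dvd_rfl, hall, ?_⟩
      have : 1 ≤ 2 ^ (j + 1) := Nat.one_le_two_pow
      exact Nat.le_mul_of_pos_left _ this
    · push Not at hall
      obtain ⟨p, hpp, hpn, hpk⟩ := hall
      obtain ⟨q, hq⟩ := hpn
      have h1 : q ^ k ≤ m ^ j := by
        have h1 : m * q ^ k ≤ m * m ^ j := by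
          calc m * q ^ k ≤ p ^ k * q ^ k := Nat.mul_le_mul_right _ hpk.le
            _ = n ^ k := by rw [← mul_pow, ← hq]
            _ ≤ m ^ (j + 1) := h
            _ = m * m ^ j := by rw [pow_succ, mul_comm]
        exact Nat.le_of_mul_le_mul_left h1 (by omega)
      have hqn : q ∣ n := ⟨p, by rw [hq, mul_comm]⟩
      obtain ⟨n', h2, h3, h4⟩ := ih q (dvd_trans hqn hn) h1
      refine ⟨n', dvd_trans h2 hqn, h3, ?_⟩
      have hp2 : tau p = 2 := by
        unfold tau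
        rw [hpp.divisors, Finset.card_pair hpp.one_lt.ne]
      calc tau n ≤ tau p * tau q := by rw [hq]; exact ldr_tau_mul p q
        _ ≤ 2 * (2 ^ j * tau n') := by rw [hp2]; exact Nat.mul_le_mul_left _ h4
        _ = 2 ^ (j + 1) * tau n' := by rw [pow_succ]; ring

theorem st_LDR : ST_LDR := by
  intro k t hk
  refine ⟨(2 : ℝ) ^ (k * t), (2 * k + 1) * t, by positivity, ?_⟩
  intro m hm
  obtain ⟨n', h1, h2, h3⟩ := ldr_big k m hm k m dvd_rfl le_rfl
  have h4 : n' ^ (2 * k) ≤ m ^ (2 * k) :=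
    Nat.pow_le_pow_left (Nat.le_of_dvd (by omega) h1) _
  obtain ⟨e, he1, he2, he3⟩ := ldr_small k m hk hm (2 * k) n' h1 h2 h4
  have h5 : tau m ≤ 2 ^ k * tau e ^ (2 * k + 1) := h3.trans (Nat.mul_le_mul_left _ he3)
  have h6 : (tau m : ℝ) ≤ 2 ^ k * (tau e : ℝ) ^ (2 * k + 1) := by exact_mod_cast h5
  have h7 : (tau m : ℝ) ^ t ≤ (2 ^ k * (tau e : ℝ) ^ (2 * k + 1)) ^ t :=
    pow_le_pow_left₀ (by positivity) h6 t
  have h8 : (tau e : ℝ) ^ ((2 * k + 1) * t) ≤
      ∑ e ∈ m.divisors.filter (fun e => e ^ k ≤ m), (tau e : ℝ) ^ ((2 * k + 1) * t) := by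
    refine Finset.single_le_sum (f := fun e : ℕ => (tau e : ℝ) ^ ((2 * k + 1) * t))
      (fun i _ => by positivity) ?_
    rw [Finset.mem_filter, Nat.mem_divisors]
    exact ⟨⟨he1, by omega⟩, he2⟩
  calc (tau m : ℝ) ^ t ≤ (2 ^ k * (tau e : ℝ) ^ (2 * k + 1)) ^ t := h7
    _ = 2 ^ (k * t) * (tau e : ℝ) ^ ((2 * k + 1) * t) := by rw [mul_pow, ← pow_mul, ← pow_mul]
    _ ≤ _ := mul_le_mul_of_nonneg_left h8 (by positivity)

end Pool.Agent.Helper37.DG
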